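import Pool.Agent.H2.FC.Dim
import Pool.Agent.H2.FC.RatMain

/-!
# MP_fcf9e8_nt: power saving outside a set of Hausdorff dimension zero
-/

set_option autoImplicit false

namespace Pool.Agent.Results.MP_fcf9e8_nt.ExceptionalSet

open Filter

/-- Power saving for all `γ` outside a set of dimension zero; the exceptional sets at one scale are
covered by few intervals; exact multiples of all `q` without a divisor in a sparse set. -/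
theorem result (b : ℕ) (hb : 2 ≤ b) :
    (∃ c₀ C : ℝ, 0 < c₀ ∧ 0 < C ∧ ∀ c : ℝ, 0 < c → c ≤ c₀ →
      (∃ A : ℝ, ∀ N : ℕ, 1 ≤ N → ∃ T : Finset ℝ,
        (T.card : ℝ) ≤ A * (N : ℝ) ^ (C * c * Real.log (1 / c)) ∧
        ∀ γ : ℝ, 0 ≤ γ → γ ≤ 1 →
          (∀ F : Finset ℕ, F.Nonempty → ∑ d ∈ F, b ^ d ≤ N → (N : ℝ) ^ (-c) <
            |γ * (∑ d ∈ F, b ^ d : ℕ) - round (γ * (∑ d ∈ F, b ^ d : ℕ))|) →
          ∃ t ∈ T, |γ - t| ≤ b / N) ∧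
      dimH {γ : ℝ | ∃ᶠ N : ℕ in atTop, ∀ F : Finset ℕ, F.Nonempty → ∑ d ∈ F, b ^ d ≤ N →
        (N : ℝ) ^ (-c) < |γ * (∑ d ∈ F, b ^ d : ℕ) - round (γ * (∑ d ∈ F, b ^ d : ℕ))|} ≤
          ENNReal.ofReal (C * c * Real.log (1 / c))) ∧
    dimH {γ : ℝ | ¬ ∃ c C : ℝ, 0 < c ∧ ∀ N : ℕ, 1 ≤ N → ∃ F : Finset ℕ, F.Nonempty ∧
      ∑ d ∈ F, b ^ d ≤ N ∧
      |γ * (∑ d ∈ F, b ^ d : ℕ) - round (γ * (∑ d ∈ F, b ^ d : ℕ))| ≤ C * (N : ℝ) ^ (-c)} = 0 ∧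
    ∀ ε : ℝ, 0 < ε → ∃ (A : ℝ) (B : Set ℕ), (∀ p ∈ B, 2 ≤ p) ∧
      (∀ X : ℕ, 1 ≤ X → ((B ∩ Set.Icc 1 X).ncard : ℝ) ≤ A * (X : ℝ) ^ ε) ∧
      ∀ q : ℕ, 1 ≤ q → (∀ p ∈ B, ¬ p ∣ q) → ∃ F : Finset ℕ, F.Nonempty ∧
        q ∣ ∑ d ∈ F, b ^ d ∧ ((∑ d ∈ F, b ^ d : ℕ) : ℝ) ≤ A * (q : ℝ) ^ A := by
  have hb2 : (2 : ℝ) ≤ b := by exact_mod_cast hb
  have hb0 : (0 : ℝ) < b := by linarith
  obtain ⟨c₀, C, hc₀, hc₁, hC, h⟩ := Pool.H2.FC.cover hb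
  have hE : ∀ c : ℝ, 0 < c → c ≤ c₀ → 0 ≤ C * c * Real.log (1 / c) := by
    intro c hc hcc
    have : 0 ≤ Real.log (1 / c) := Real.log_nonneg (by rw [le_div_iff₀ hc]; linarith)
    positivity
  have hdim : ∀ c : ℝ, 0 < c → c ≤ c₀ → dimH (Pool.H2.FC.Ex b c) ≤
      ENNReal.ofReal (C * c * Real.log (1 / c)) := by
    intro c hc hcc
    obtain ⟨A, _, hA⟩ := h c hc hcc
    exact Pool.H2.FC.dimH_Ex hb hc (hE c hc hcc) hA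
  refine ⟨⟨c₀, C, hc₀, hC, ?_⟩, ?_, ?_⟩
  · intro c hc hcc
    refine ⟨?_, hdim c hc hcc⟩
    obtain ⟨A, hA, hT⟩ := h c hc hcc
    refine ⟨A, ?_⟩
    intro N hN
    have hN0 : N ≠ 0 := by omega
    have hNr : (0 : ℝ) < N := by exact_mod_cast hN
    obtain ⟨T, hT1, hT2⟩ := hT (Nat.log b N)
    refine ⟨T, hT1.trans ?_, ?_⟩
    · apply mul_le_mul_of_nonneg_left _ hA.le
      rw [Real.rpow_def_of_pos hNr, Real.exp_le_exp, mul_comm (Real.log N)]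
      apply mul_le_mul_of_nonneg_left _ (hE c hc hcc)
      have h1 : ((b ^ (Nat.log b N) : ℕ) : ℝ) ≤ N := by
        exact_mod_cast Nat.pow_log_le_self b hN0
      push_cast at h1
      have h2 := Real.log_le_log (by positivity) h1
      rwa [Real.log_pow] at h2
    · intro γ h0 h1 hγ
      obtain ⟨t, ht, hγt⟩ := hT2 γ h0 h1 (Pool.H2.FC.bad_of_noSave hb hc hN0 hγ)
      refine ⟨t, ht, hγt.trans ?_⟩
      rw [div_le_div_iff₀ (by positivity) hNr, one_mul]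
      have h2 : (N : ℝ) ≤ (b : ℝ) ^ (Nat.log b N + 1) := by
        exact_mod_cast (Nat.lt_pow_succ_log_self (by omega) N).le
      rw [pow_succ] at h2
      linarith
  · exact Pool.H2.FC.dimH_noPower hc₀ hdim
  · intro ε hε
    exact Pool.H2.FC.rat_main hb hε

end Pool.Agent.Results.MP_fcf9e8_nt.ExceptionalSet
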