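import Pool.Agent.H80.FC.Check
import Pool.Agent.H80.FC.Stair

set_option autoImplicit false

namespace Pool.Agent.Results.MP_fcf9e8_nt.ExponentBound

/-- For the bases `b = 3, 4, 5` with `r = 2 b - 3` and for all bases `b ≥ 4` with `r = 2 b - 4`:
there is `t > 0` such that for every `N ≥ 1` some real `γ` has distance at least
`t N ^ (-1/r)` from the integers after multiplication by any positive integer at most `N` with
base `b` digits in `{0, 1}`; consequently every admissible exponent is at most `1/r`. -/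
theorem result (b r : ℕ) (h : ((b = 3 ∨ b = 4 ∨ b = 5) ∧ r = 2 * b - 3) ∨
    (4 ≤ b ∧ r = 2 * b - 4)) :
    (∃ t : ℝ, 0 < t ∧ ∀ N : ℕ, 1 ≤ N → ∃ γ : ℝ, ∀ F : Finset ℕ, F.Nonempty →
      ∑ d ∈ F, b ^ d ≤ N → t * (N : ℝ) ^ (-(1 / (r : ℝ))) ≤
        |γ * ((∑ d ∈ F, b ^ d : ℕ) : ℝ) - round (γ * ((∑ d ∈ F, b ^ d : ℕ) : ℝ))|) ∧
    (∀ c : ℝ, (∃ C : ℝ, 0 < C ∧ ∀ N : ℕ, 1 ≤ N → ∀ γ : ℝ,
      ∃ F : Finset ℕ, F.Nonempty ∧ ∑ d ∈ F, b ^ d ≤ N ∧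
        |γ * ((∑ d ∈ F, b ^ d : ℕ) : ℝ) - round (γ * ((∑ d ∈ F, b ^ d : ℕ) : ℝ))| ≤
          C * (N : ℝ) ^ (-c)) → c ≤ 1 / (r : ℝ)) := by
  have hL : H80.FC.Lower b r := by
    rcases h with ⟨h, rfl⟩ | ⟨h, rfl⟩
    · rcases h with rfl | rfl | rfl
      · exact H80.FC.lower3
      · exact H80.FC.lower4
      · exact H80.FC.lower5
    · exact H80.FC.lowerS h
  exact ⟨hL, fun c hc => H80.FC.adm_le hL hc⟩

end Pool.Agent.Results.MP_fcf9e8_nt.ExponentBound
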