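import Pool.Agent.H2.SPL.NearPowerProof

set_option autoImplicit false

namespace Pool.Agent.Results.MP_fcf9e8_nt.NearPower

open Finset Filter

/-- Near-power saving for digit-restricted multipliers: for every base `b ≥ 2` there are constants
`c, C > 0` such that for every real `γ` and every integer `N ≥ 16` there is an integer `n` with
`1 ≤ n ≤ N` whose base-`b` expansion only uses the digits `0` and `1` (that is,
`n = ∑_{d ∈ F} b ^ d` for a nonempty finite set `F`), with
`‖γ n‖ ≤ C exp (-c log N / (log log N)^2)`. -/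
theorem result (b : ℕ) (hb : 2 ≤ b) : ∃ c C : ℝ, 0 < c ∧ 0 < C ∧
    ∀ (γ : ℝ) (N : ℕ), 16 ≤ N → ∃ F : Finset ℕ, F.Nonempty ∧ ∑ d ∈ F, b ^ d ≤ N ∧
      |γ * ((∑ d ∈ F, b ^ d : ℕ) : ℝ) - round (γ * ((∑ d ∈ F, b ^ d : ℕ) : ℝ))|
        ≤ C * Real.exp (-c * (Real.log N / Real.log (Real.log N) ^ 2)) :=
  result_proof b hb

end Pool.Agent.Results.MP_fcf9e8_nt.NearPower
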